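import Pool.Agent.AT2.Stmts
import Pool.Agent.Helper77_ML.Fin

/-!
# Squad AT2, module FN2: the final theorem for defect groups of rank two
-/

open scoped BigOperators

noncomputable section

namespace Pool.Agent.PP.T2.H53

open Pool.Agent.Helper51_AWC Pool.Agent.Helper79_WRA Pool.Agent.PP Pool.Agent.PP.KF
open Pool.Agent.PP.K9 Pool.Agent.PP.K9.H97 Pool.Agent.PP.H75 Pool.Agent.PP.T3

attribute [local instance] Ideal.Quotient.field

/-- two surjections with the same kernel -/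
def eqv {D V W : Type} [Group D] [Group V] [Group W] (ψ : D →* V) (φ : D →* W)
    (hψ : Function.Surjective ψ) (hφ : Function.Surjective φ) (h : ψ.ker = φ.ker) : V ≃* W :=
  (QuotientGroup.quotientKerEquivOfSurjective ψ hψ).symm.trans
    ((QuotientGroup.quotientMulEquivOfEq h).trans
      (QuotientGroup.quotientKerEquivOfSurjective φ hφ))

/-- the abelian group of rank two -/
abbrev W2 (m n : ℕ) : Type := Multiplicative (ZMod m) × Multiplicative (ZMod n)

theorem exp_cyc (n : ℕ) : Monoid.exponent (Multiplicative (ZMod n)) = n := by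
  rw [IsCyclic.exponent_eq_card, Nat.card_congr Multiplicative.toAdd, Nat.card_zmod]

theorem exp_W2 {ℓ : ℕ} (a b : ℕ) : Monoid.exponent (W2 (ℓ ^ a) (ℓ ^ b)) = ℓ ^ max a b := by
  rw [Monoid.exponent_prod, exp_cyc, exp_cyc]
  rcases le_total a b with h | h
  · rw [max_eq_right h]
    exact Nat.lcm_eq_right (pow_dvd_pow ℓ h)
  · rw [max_eq_left h]
    exact Nat.lcm_eq_left (pow_dvd_pow ℓ h)

theorem gen_W2 (m n : ℕ) (w : W2 m n) : ∃ i j : ℤ,
    w = ((Multiplicative.ofAdd (1 : ZMod m), 1) : W2 m n) ^ i *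
      ((1, Multiplicative.ofAdd (1 : ZMod n)) : W2 m n) ^ j := by
  obtain ⟨x, y⟩ := w
  obtain ⟨i, hi⟩ := ZMod.intCast_surjective (Multiplicative.toAdd x)
  obtain ⟨j, hj⟩ := ZMod.intCast_surjective (Multiplicative.toAdd y)
  refine ⟨i, j, ?_⟩
  ext
  · change x = (Multiplicative.ofAdd (1 : ZMod m)) ^ i * (1 : Multiplicative (ZMod m)) ^ j
    rw [one_zpow, mul_one, ← ofAdd_zsmul, zsmul_one, hi]
    rfl
  · change y = (1 : Multiplicative (ZMod n)) ^ i * (Multiplicative.ofAdd (1 : ZMod n)) ^ j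
    rw [one_zpow, one_mul, ← ofAdd_zsmul, zsmul_one, hj]
    rfl

/-- FN2 -/
theorem fn2 (hT2A : T2aStmt) (hDZA : DzaStmt) : Fn2Stmt := by
  classical
  intro ℓ hfact M _ hM hℓ2 G _ _ hc χ hχ D hD a b hab φ hφ hker0
  have hℓ : ℓ.Prime := hfact.out
  have hF : GoodF ℓ (FF M) := H50.fld ℓ hℓ M hM
  have hn : (opCore ℓ G).Normal := H75.opCore_normal (A := G) ℓ
  obtain ⟨e, he, h1, h2⟩ := H50.bid ℓ hℓ M hM G χ hχ
  let p : G →* G ⧸ opCore ℓ G := QuotientGroup.mk' (opCore ℓ G)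
  have hker : p.ker = opCore ℓ G := QuotientGroup.ker_mk' _
  have hsurj : Function.Surjective p := QuotientGroup.mk'_surjective (opCore ℓ G)
  have hkp : IsPGroup ℓ p.ker := by
    rw [hker]
    exact H75.opCore_isPGroup hℓ
  have hkc : p.ker ≤ Subgroup.center G := by
    rw [hker]
    exact hc
  have hcomm : ∀ x ∈ D, ∀ y ∈ D, x * y * x⁻¹ * y⁻¹ ∈ opCore ℓ G := by
    intro x hx y hy
    have h3 : φ ((⟨x, hx⟩ : D) * ⟨y, hy⟩ * (⟨x, hx⟩ : D)⁻¹ * (⟨y, hy⟩ : D)⁻¹) = 1 := by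
      rw [map_mul, map_mul, map_mul, map_inv, map_inv,
        mul_comm (φ (⟨x, hx⟩ : D)) (φ (⟨y, hy⟩ : D)), mul_inv_cancel_right, mul_inv_cancel]
    exact (hker0 _).1 h3
  obtain ⟨hblk, -, -, γ, hL⟩ := hDZA ℓ M hM G hc χ hχ D hD hcomm e he h1
    (G ⧸ opCore ℓ G) p hsurj hker
  have heq := H75.altSum_central H20.nls H20.brm H63.smt H94.nch
    (H50.dic H20.ibn H20.nls H20.brm) hℓ M hM hF hsurj hker hkp hkc χ hχ e he h1 h2
  -- the defect group
  let V : Subgroup (G ⧸ opCore ℓ G) := D.map p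
  have hL' : Ld ℓ (push p e) V γ := hL
  let ψ : D →* V := p.subgroupMap D
  have hψ : Function.Surjective ψ := p.subgroupMap_surjective D
  have hkk : ψ.ker = φ.ker := by
    ext x
    rw [MonoidHom.mem_ker, MonoidHom.mem_ker, hker0]
    have h3 : (x : G) ∈ opCore ℓ G ↔ p (x : G) = 1 := by
      rw [← MonoidHom.mem_ker]
      exact (iff_of_eq (congrArg (fun S : Subgroup G => (x : G) ∈ S) hker)).symm
    rw [h3]
    exact Subtype.ext_iff
  let E : V ≃* W2 (ℓ ^ a) (ℓ ^ b) := eqv ψ φ hψ hφ hkk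
  have hcardV : Nat.card V = ℓ ^ (a + b) := by
    rw [Nat.card_congr E.toEquiv, Nat.card_prod, Nat.card_congr Multiplicative.toAdd, Nat.card_zmod,
      Nat.card_congr Multiplicative.toAdd, Nat.card_zmod, pow_add]
  have hTy : Ty ℓ (max a b) V (ix V γ) := by
    refine ⟨by omega, ?_, ?_, Or.inr ?_⟩
    · rw [Monoid.exponent_eq_of_mulEquiv E, exp_W2]
    · rw [hcardV]
      exact Nat.pow_lt_pow_right hℓ.one_lt (by omega)
    · refine ⟨((E.symm (Multiplicative.ofAdd (1 : ZMod (ℓ ^ a)), 1) : V) : G ⧸ opCore ℓ G),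
        ((E.symm (1, Multiplicative.ofAdd (1 : ZMod (ℓ ^ b))) : V) : G ⧸ opCore ℓ G), ?_⟩
      apply le_antisymm
      · intro v hv
        obtain ⟨i, j, hij⟩ := gen_W2 (ℓ ^ a) (ℓ ^ b) (E ⟨v, hv⟩)
        have h3 : (⟨v, hv⟩ : V) =
            (E.symm (Multiplicative.ofAdd (1 : ZMod (ℓ ^ a)), 1)) ^ i *
            (E.symm (1, Multiplicative.ofAdd (1 : ZMod (ℓ ^ b)))) ^ j := by
          rw [← map_zpow, ← map_zpow, ← map_mul, ← hij, MulEquiv.symm_apply_apply]
        have h4 := congrArg (fun t : V => (t : G ⧸ opCore ℓ G)) h3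
        change v = _ at h4
        rw [h4]
        change ((E.symm (Multiplicative.ofAdd (1 : ZMod (ℓ ^ a)), 1) : V) : G ⧸ opCore ℓ G) ^ i *
          ((E.symm (1, Multiplicative.ofAdd (1 : ZMod (ℓ ^ b))) : V) : G ⧸ opCore ℓ G) ^ j ∈ _
        refine mul_mem (Subgroup.zpow_mem _ (Subgroup.subset_closure ?_) _)
          (Subgroup.zpow_mem _ (Subgroup.subset_closure ?_) _)
        · exact Or.inl rfl
        · exact Or.inr rfl
      · rw [Subgroup.closure_le]
        rintro x (rfl | rfl)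
        · exact SetLike.coe_mem _
        · exact SetLike.coe_mem _
  have h0 : YY ℓ (⊤ : Subgroup (G ⧸ opCore ℓ G)) (push p e) = 0 :=
    hT2A ℓ M hM hℓ2 (max a b) (G ⧸ opCore ℓ G) (push p e) V γ hL' hTy
  rw [h0, mul_zero] at heq
  rcases mul_eq_zero.1 heq with h | h
  · exact absurd h (by exact_mod_cast (Nat.card_pos (α := G)).ne')
  · exact h

end Pool.Agent.PP.T2.H53
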